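import Pool.Agent.Lib.MP_743d1e_nt.PC.SpecE
import Pool.Agent.Lib.MP_743d1e_nt.PlaceQ
import Pool.Agent.Lib.MP_743d1e_nt.Kae

/-!
# EXV: extension of a discrete valuation to a finite extension
-/

set_option autoImplicit false

namespace MP743d1e.PC

open scoped BigOperators
open Polynomial

namespace EXVM

section Base

variable {K : Type} [Field K] (v : DVal K)

/-- The valuation ring of `v`. -/
def O : ValuationSubring K where
  carrier := {f | Integ.NN v f}
  mul_mem' := fun ha hb => Integ.nn_mul ha hb
  one_mem' := Integ.nn_one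
  add_mem' := fun ha hb => Integ.nn_add ha hb
  zero_mem' := Integ.nn_zero
  neg_mem' := fun ha => Integ.nn_neg ha
  mem_or_inv_mem' := by
    intro x
    by_cases hx : x = 0
    · exact Or.inl (Or.inl hx)
    · by_cases h : 0 ≤ v.ord (Units.mk0 x hx)
      · exact Or.inl (Or.inr ⟨Units.mk0 x hx, rfl, h⟩)
      · refine Or.inr (Or.inr ⟨(Units.mk0 x hx)⁻¹, by simp, ?_⟩)
        rw [v.ord_inv]
        omega

theorem mem_O {f : K} : f ∈ O v ↔ Integ.NN v f := Iff.rfl

theorem unit_mem_O {u : Kˣ} : (u : K) ∈ O v ↔ 0 ≤ v.ord u := by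
  rw [mem_O]
  exact Integ.nn_unit

/-- An element of the valuation ring of order zero is a unit. -/
theorem isUnit_of_ord {u : Kˣ} (h : v.ord u = 0) (hu : (u : K) ∈ O v) :
    IsUnit (⟨(u : K), hu⟩ : O v) := by
  have hi : ((u⁻¹ : Kˣ) : K) ∈ O v := by
    rw [unit_mem_O, v.ord_inv, h]
    simp
  refine IsUnit.of_mul_eq_one ⟨((u⁻¹ : Kˣ) : K), hi⟩ ?_
  apply Subtype.ext
  show (u : K) * ((u⁻¹ : Kˣ) : K) = 1
  simp

/-- A unit of the valuation ring has order zero. -/
theorem ord_of_isUnit {u : Kˣ} (hu : (u : K) ∈ O v) (h : IsUnit (⟨(u : K), hu⟩ : O v)) :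
    v.ord u = 0 := by
  obtain ⟨b, hb⟩ := isUnit_iff_exists_inv.mp h
  have h1 : (u : K) * (b : K) = 1 := congrArg Subtype.val hb
  have h2 : (b : K) = ((u⁻¹ : Kˣ) : K) := by
    rw [Units.val_inv_eq_inv_val]
    exact eq_inv_of_mul_eq_one_right h1
  have h3 : ((u⁻¹ : Kˣ) : K) ∈ O v := h2 ▸ b.2
  rw [unit_mem_O, v.ord_inv] at h3
  rw [unit_mem_O] at hu
  omega

theorem isDVR : IsDiscreteValuationRing (O v) := by
  apply IsDiscreteValuationRing.ofHasUnitMulPowIrreducibleFactorization
  obtain ⟨π, hπ⟩ := v.surj 1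
  have hπm : (π : K) ∈ O v := by rw [unit_mem_O, hπ]; norm_num
  refine ⟨⟨(π : K), hπm⟩, ?_, ?_⟩
  · constructor
    · intro h
      have := ord_of_isUnit v hπm h
      omega
    · intro a b hab
      have h1 : (π : K) = (a : K) * (b : K) := congrArg Subtype.val hab
      have ha0 : (a : K) ≠ 0 := by
        intro h
        rw [h, zero_mul] at h1
        exact π.ne_zero h1
      have hb0 : (b : K) ≠ 0 := by
        intro h
        rw [h, mul_zero] at h1
        exact π.ne_zero h1
      have h2 : π = Units.mk0 (a : K) ha0 * Units.mk0 (b : K) hb0 := Units.ext h1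
      have h3 : v.ord (Units.mk0 (a : K) ha0) + v.ord (Units.mk0 (b : K) hb0) = 1 := by
        rw [← v.ord_mul, ← h2, hπ]
      have ha : ((Units.mk0 (a : K) ha0 : Kˣ) : K) ∈ O v := a.2
      have hb : ((Units.mk0 (b : K) hb0 : Kˣ) : K) ∈ O v := b.2
      have ha1 := (unit_mem_O v).mp ha
      have hb1 := (unit_mem_O v).mp hb
      by_cases h4 : v.ord (Units.mk0 (a : K) ha0) = 0
      · left
        exact isUnit_of_ord v h4 ha
      · right
        exact isUnit_of_ord v (by omega) hb
  · intro x hx
    have hx0 : (x : K) ≠ 0 := fun h => hx (Subtype.ext h)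
    have hxm : ((Units.mk0 (x : K) hx0 : Kˣ) : K) ∈ O v := x.2
    have hx1 := (unit_mem_O v).mp hxm
    obtain ⟨n, hn⟩ := Int.eq_ofNat_of_zero_le hx1
    refine ⟨n, ?_⟩
    let u : Kˣ := π ^ (-(n : ℤ)) * Units.mk0 (x : K) hx0
    have hu : v.ord u = 0 := by
      show v.ord (π ^ (-(n : ℤ)) * Units.mk0 (x : K) hx0) = 0
      rw [v.ord_mul, v.ord_zpow, hπ, hn]
      ring
    have hum : (u : K) ∈ O v := by rw [unit_mem_O, hu]
    obtain ⟨w, hw⟩ := isUnit_of_ord v hu hum
    refine ⟨w, ?_⟩
    rw [hw]
    apply Subtype.ext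
    show (π : K) ^ n * (u : K) = (x : K)
    show (π : K) ^ n * ((π ^ (-(n : ℤ)) * Units.mk0 (x : K) hx0 : Kˣ) : K) = (x : K)
    rw [Units.val_mul, Units.val_zpow_eq_zpow_val, Units.val_mk0, zpow_neg, zpow_natCast,
      ← mul_assoc, mul_inv_cancel₀ (pow_ne_zero _ π.ne_zero), one_mul]

end Base

end EXVM

open EXVM in
theorem specEXV : SpecEXV := by
  intro K E _ _ _ _ _ v
  have hdvr : IsDiscreteValuationRing (O v) := isDVR v
  have hded0 : IsDedekindDomain (O v) := inferInstance
  let algOE : Algebra (O v) E := ((algebraMap K E).comp (algebraMap (O v) K)).toAlgebra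
  have htower : IsScalarTower (O v) K E := IsScalarTower.of_algebraMap_eq fun _ => rfl
  have hsep : Algebra.IsSeparable K E := inferInstance
  have hded : IsDedekindDomain (integralClosure (O v) E) :=
    IsIntegralClosure.isDedekindDomain (O v) K E (integralClosure (O v) E)
  have hfrac : IsFractionRing (integralClosure (O v) E) E :=
    integralClosure.isFractionRing_of_finite_extension K E
  obtain ⟨π, hπ⟩ := v.surj 1
  have hπm : (π : K) ∈ O v := by rw [unit_mem_O, hπ]; norm_num
  let a : O v := ⟨(π : K), hπm⟩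
  have ha : ¬ IsUnit a := by
    intro h
    have := ord_of_isUnit v hπm h
    omega
  have hint : Algebra.IsIntegral (O v) (integralClosure (O v) E) := inferInstance
  have hinjE : Function.Injective (algebraMap (O v) E) :=
    (algebraMap K E).injective.comp Subtype.val_injective
  have hinj : Function.Injective (algebraMap (O v) (integralClosure (O v) E)) := by
    intro x y hxy
    apply hinjE
    exact congrArg (algebraMap (integralClosure (O v) E) E) hxy
  have hfaith : FaithfulSMul (O v) (integralClosure (O v) E) :=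
    (faithfulSMul_iff_algebraMap_injective _ _).mpr hinj
  have hloc : IsLocalHom (algebraMap (O v) (integralClosure (O v) E)) := inferInstance
  have hnu : algebraMap (O v) (integralClosure (O v) E) a ∈ nonunits (integralClosure (O v) E) := by
    intro h
    exact ha (hloc.map_nonunit a h)
  obtain ⟨P, hP, hmem⟩ := exists_max_ideal_of_mem_nonunits hnu
  have ha0 : algebraMap (O v) (integralClosure (O v) E) a ≠ 0 := by
    intro h
    rw [map_eq_zero_iff _ hinj] at h
    exact π.ne_zero (congrArg Subtype.val h)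
  have hPbot : P ≠ ⊥ := by
    intro h
    rw [h, Ideal.mem_bot] at hmem
    exact ha0 hmem
  let q : IsDedekindDomain.HeightOneSpectrum (integralClosure (O v) E) := ⟨P, hP.isPrime, hPbot⟩
  let w : DVal E := PlaceQ.dval q
  have hword : ∀ f : Eˣ, w.ord f = -(WithZero.log (q.valuation E (f : E))) := fun f => rfl
  have hpos : ∀ u : Kˣ, 0 ≤ v.ord u →
      0 ≤ w.ord (Units.map (algebraMap K E : K →* E) u) := by
    intro u hu
    rw [hword]
    have hum : (u : K) ∈ O v := (unit_mem_O v).mpr hu
    have h1 : q.valuation E (algebraMap K E (u : K)) ≤ 1 := by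
      have h2 : algebraMap K E (u : K) = algebraMap (integralClosure (O v) E) E
          (algebraMap (O v) (integralClosure (O v) E) ⟨(u : K), hum⟩) := rfl
      rw [h2]
      exact q.valuation_le_one _
    have h0 : algebraMap K E (u : K) ≠ 0 := by
      rw [Ne, map_eq_zero_iff _ (algebraMap K E).injective]
      exact u.ne_zero
    have h3 := (WithZero.log_le_log ((Valuation.ne_zero_iff (q.valuation E)).mpr h0)
      one_ne_zero).mpr h1
    rw [WithZero.log_one] at h3
    show 0 ≤ -(WithZero.log (q.valuation E (algebraMap K E (u : K))))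
    omega
  have hzero : ∀ u : Kˣ, v.ord u = 0 →
      w.ord (Units.map (algebraMap K E : K →* E) u) = 0 := by
    intro u hu
    have h1 := hpos u (by omega)
    have h2 := hpos u⁻¹ (by rw [v.ord_inv]; omega)
    rw [map_inv, w.ord_inv] at h2
    omega
  have hπpos : 1 ≤ w.ord (Units.map (algebraMap K E : K →* E) π) := by
    rw [hword]
    have h1 : q.valuation E (algebraMap (integralClosure (O v) E) E
        (algebraMap (O v) (integralClosure (O v) E) a)) < 1 :=
      (q.valuation_lt_one_iff_mem _).mpr hmem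
    have h2 : algebraMap (integralClosure (O v) E) E
        (algebraMap (O v) (integralClosure (O v) E) a) = algebraMap K E (π : K) := rfl
    rw [h2] at h1
    have h0 : algebraMap K E (π : K) ≠ 0 := by
      rw [Ne, map_eq_zero_iff _ (algebraMap K E).injective]
      exact π.ne_zero
    have h3 := (WithZero.log_lt_log ((Valuation.ne_zero_iff (q.valuation E)).mpr h0)
      one_ne_zero).mpr h1
    rw [WithZero.log_one] at h3
    show 1 ≤ -(WithZero.log (q.valuation E (algebraMap K E (π : K))))
    omega
  refine ⟨w, (w.ord (Units.map (algebraMap K E : K →* E) π)).toNat, by omega, ?_⟩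
  intro f
  rw [Int.toNat_of_nonneg (by omega)]
  let u : Kˣ := π ^ (-(v.ord f)) * f
  have hu : v.ord u = 0 := by
    show v.ord (π ^ (-(v.ord f)) * f) = 0
    rw [v.ord_mul, v.ord_zpow, hπ]
    ring
  have hf : f = π ^ (v.ord f) * u := by
    show f = π ^ (v.ord f) * (π ^ (-(v.ord f)) * f)
    rw [← mul_assoc, ← zpow_add]
    simp
  have h1 := hzero u hu
  calc w.ord (Units.map (algebraMap K E : K →* E) f)
      = w.ord (Units.map (algebraMap K E : K →* E) (π ^ (v.ord f) * u)) := by rw [← hf]
    _ = w.ord (Units.map (algebraMap K E : K →* E) π) * v.ord f := by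
      rw [map_mul, map_zpow, w.ord_mul, w.ord_zpow, h1]
      ring

end MP743d1e.PC
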