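import Pool.Agent.Lib.MP_743d1e_nt.Const
import Pool.Agent.Lib.MP_743d1e_nt.Statement

/-!
# Block PC, general modules: finite extensions `E / K`, valuations, symbols and loops

Module `XXX` = `Lib/MP_743d1e_nt/PC/XXX.lean`, theorem `MP743d1e.PC.specXXX (hYYY : SpecYYY) .. : SpecXXX`,
own lemmas in the namespace `MP743d1e.PC.XXXM`, `import Pool.Agent.Lib.MP_743d1e_nt.PC.SpecE`.
-/

set_option autoImplicit false

namespace MP743d1e.PC

open scoped BigOperators
open Polynomial

/-- The map on `K2` induced by a homomorphism of fields, `{f, g} ↦ {φ f, φ g}`. -/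
noncomputable def k2map {K E : Type} [Field K] [Field E] (φ : K →+* E) : K2 K →+ K2 E :=
  ConstM.mapK φ

theorem k2map_sym {K E : Type} [Field K] [Field E] (φ : K →+* E) (f g : Kˣ) :
    k2map φ (sym f g) = sym (Units.map (φ : K →* E) f) (Units.map (φ : K →* E) g) :=
  ConstM.mapK_sym φ f g

/-! ## Valuations -/

/-- SUM [60 lines]. A sum of nonzero elements with distinct valuations is not zero (none).

Proof. Let `i₀ ∈ s` have the smallest `v.ord (u i₀)`. If the sum is zero, `-1 = ∑_{i ≠ i₀} u i / u i₀`, where all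
terms have positive order (`Integ.Pos`), so the sum is `Pos` (`TInt.pos_sum` in `T/INT.lean`), but
`-1` is not (`TInt.not_pos_one`). -/
def SpecSUM : Prop :=
  ∀ (K : Type) [Field K] (v : DVal K) (ι : Type) (s : Finset ι) (u : ι → Kˣ), s.Nonempty →
    (∀ i ∈ s, ∀ j ∈ s, i ≠ j → v.ord (u i) ≠ v.ord (u j)) → ∑ i ∈ s, (u i : K) ≠ 0

/-- EXV [200 lines]. Extension of a valuation to a finite extension (none).

Proof. `O = {f | NN v f}` is a `ValuationSubring` of `K` (`Integ.nn_mul`, `nn_add`, ..); with `v.ord π = 1` every nonzero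
element of `O` is `π ^ n` times a unit of `O`, so `O` is a discrete valuation ring
(`IsDiscreteValuationRing.ofHasUnitMulPowIrreducibleFactorization`), hence a Dedekind domain. As `E / K` is finite
and separable, `B = integralClosure O E` is a Dedekind domain with fraction field `E`
(`IsIntegralClosure.isDedekindDomain O K E B`, `integralClosure.isFractionRing_of_finite_extension`, as in
`PlaceQ.lean`; the algebra structure of `E` over `O` is the composition). `π` is not a unit in `B` (`π⁻¹` is not
integral over `O`, which is integrally closed in `K`), let `P` be a maximal ideal of `B` which contains `π`, and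
`w = PlaceQ.dval P` (in `PlaceQ.lean`). Then `w.ord ≥ 0` on `B`, in particular on `O`, so `w.ord = 0` on the units
of `O`, and `e = w.ord π ≥ 1`. If `v.ord f = n` then `f = π ^ n * unit`, so `w.ord f = n * e`. -/
def SpecEXV : Prop :=
  ∀ (K E : Type) [Field K] [Field E] [Algebra K E] [CharZero K] [FiniteDimensional K E]
    (v : DVal K), ∃ (w : DVal E) (e : ℕ), 1 ≤ e ∧
      ∀ f : Kˣ, w.ord (Units.map (algebraMap K E : K →* E) f) = e * v.ord f

/-- EBD [80 lines]. The ramification index is at most the degree (SUM).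

Proof. Let `w.ord t = 1` (`w.surj`) and let `∑_{i ≤ d} c i t ^ i = 0` be the minimal equation of `t` over `K`,
`d ≤ finrank K E` (`minpoly.natDegree_le`). The nonzero terms have the orders `e * v.ord (c i) + i`; by SUM (there is at
least one nonzero term) two of them, `i < j`, have the same order, so `e` divides `j - i` and
`e ≤ j - i ≤ d`. -/
def SpecEBD : Prop :=
  ∀ (K E : Type) [Field K] [Field E] [Algebra K E] [FiniteDimensional K E]
    (v : DVal K) (w : DVal E) (e : ℕ),
    (∀ f : Kˣ, w.ord (Units.map (algebraMap K E : K →* E) f) = e * v.ord f) →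
      e ≤ Module.finrank K E

/-- RES [100 lines]. The tame symbol of the image in `K2 E` (none).

Proof. `w.tameUnit (φ f) (φ g) = φ (v.tameUnit f g) ^ e`, because `e ^ 2` and `e` have the same parity. `φ` maps `v.U1`
into `w.U1`, and `φ f ∈ w.U1` implies `f ∈ v.U1` (`e * v.ord u ≥ 1` implies `v.ord u ≥ 1`); so `φ` induces an
injective homomorphism `ι : Additive (Kˣ ⧸ v.U1) →+ Additive (Eˣ ⧸ w.U1)`, and
`tame w (k2map φ b) = ι (e • tame v b) = ι (tame v (e • b))` (`K2.hom_ext`). -/
def SpecRES : Prop :=
  ∀ (K E : Type) [Field K] [Field E] (φ : K →+* E) (v : DVal K) (w : DVal E) (e : ℕ), 1 ≤ e →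
    (∀ f : Kˣ, w.ord (Units.map (φ : K →* E) f) = e * v.ord f) → ∀ b : K2 K,
      tame w (k2map φ b) = 0 → tame v (e • b) = 0

/-- UNR [20 lines]. Descent of unramified elements (EXV, EBD, RES).

Proof. `e` divides `(finrank K E)!`. -/
def SpecUNR : Prop :=
  ∀ (K E : Type) [Field K] [Field E] [Algebra K E] [CharZero K] [FiniteDimensional K E] (b : K2 K),
    Unramified (k2map (algebraMap K E) b) → Unramified ((Module.finrank K E).factorial • b)

/-! ## Root paths -/

/-- The family of monic polynomials `p θ` of degree `n` with `C¹` coefficients and simple roots. -/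
structure PFam (n : ℕ) (p : ℝ → ℂ[X]) : Prop where
  monic : ∀ θ, (p θ).Monic
  deg : ∀ θ, (p θ).natDegree = n
  smooth : ∀ i, ContDiff ℝ 1 fun θ => (p θ).coeff i
  simple : ∀ θ z, (p θ).eval z = 0 → (derivative (p θ)).eval z ≠ 0

/-- RTP [200 lines]. Continuous root paths: existence and uniqueness (none).

Proof. `Ψ : ℝ × ℂ → ℝ × ℂ`, `Ψ (θ, z) = (θ, (p θ).eval z)` is `C¹` (a finite sum of `coeff * z ^ i`). It is proper, hence closed:
if `θ` and `(p θ).eval z` are bounded then `|z| ≤ 1 + M + n C` (Cauchy bound, `C` a bound of the coefficients on the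
compact set of the `θ`); `isProperMap_iff_isCompact_preimage`, `IsProperMap.isClosedMap`. Its fibres are finite if
`n ≥ 1` (roots of a polynomial; for `n = 0` the statement is void). At a point with
`(derivative (p θ)).eval z ≠ 0` the real derivative `(dθ, dz) ↦ (dθ, P_θ dθ + P_z dz)` is invertible, so `Ψ` is a local
homeomorphism there (`HasStrictFDerivAt.toOpenPartialHomeomorph`, compare `Polynomial.isCoveringMapOn_eval` in
`Mathlib/Analysis/Complex/CoveringMap.lean`). So `Ψ` is a covering map on the set `s` of the points all of whose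
preimages have `P_z ≠ 0` (`IsClosedMap.isCoveringMapOn_of_isLocalHomeomorphOn`), which contains `ℝ × {0}`. Lift
`θ ↦ (θ, 0)` by `IsCoveringMapOn.existsUnique_continuousMap_lifts` (`ℝ` is simply connected). -/
def SpecRTP : Prop :=
  ∀ (n : ℕ) (p : ℝ → ℂ[X]), PFam n p →
    (∀ (θ₀ : ℝ) (z₀ : ℂ), (p θ₀).eval z₀ = 0 → ∃ r : ℝ → ℂ, Continuous r ∧ r θ₀ = z₀ ∧
      ∀ θ, (p θ).eval (r θ) = 0) ∧
    ∀ r r' : ℝ → ℂ, Continuous r → Continuous r' → (∀ θ, (p θ).eval (r θ) = 0) →
      (∀ θ, (p θ).eval (r' θ) = 0) → (∃ θ₀, r θ₀ = r' θ₀) → r = r'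

/-- SMR [80 lines]. Continuous root paths are `C¹` (none).

Proof. At `θ₀` the map `Ψ` of RTP has a local inverse which is `C¹` at `(θ₀, 0)` (`ContDiffAt.to_localInverse` or
`ContDiffAt.toOpenPartialHomeomorph`), and `(θ, r θ)` is the value of this local inverse at `(θ, 0)` for `θ` near `θ₀`,
because `r` is continuous and `Ψ` is injective near `(θ₀, r θ₀)`. -/
def SpecSMR : Prop :=
  ∀ (n : ℕ) (p : ℝ → ℂ[X]), PFam n p → ∀ r : ℝ → ℂ, Continuous r →
    (∀ θ, (p θ).eval (r θ) = 0) → ContDiff ℝ 1 r

/-- PER [80 lines]. Root paths of a periodic family are periodic with a multiple of the period (RTP).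

Proof. Let `R` be the set of continuous root paths. `r ↦ r 0` is injective from `R` to the roots of `p 0`, so `R` is finite.
The shift by `2 π` is an injective map `R → R`, so every `r` is a periodic point of it
(`Function.Injective.mem_periodicPts`). -/
def SpecPER : Prop :=
  ∀ (n : ℕ) (p : ℝ → ℂ[X]), PFam n p → (∀ θ, p (θ + 2 * Real.pi) = p θ) →
    ∀ r : ℝ → ℂ, Continuous r → (∀ θ, (p θ).eval (r θ) = 0) →
      ∃ N : ℕ, 1 ≤ N ∧ ∀ θ, r (θ + 2 * Real.pi * N) = r θ

/-! ## Loops -/

/-- LFT [150 lines]. Lifting of a loop to a finite extension (RTP, SMR, PER).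

Proof. `E = K(α)` (`Field.exists_primitive_element`); `q` the minimal polynomial of `α` over `K`, monic and separable of
degree `n ≥ 1`. `p θ = q.map (γ.ev θ)` is a `PFam` (separable polynomials stay separable: `Polynomial.Separable.map`,
`Separable.eval₂_derivative_ne_zero` or from `a q + b q' = 1`), periodic. Let `z₀` be a root of `p 0`, `r` the root path with
`r 0 = z₀`, `N` from PER. For each `θ` there is a ring homomorphism `ψ θ : E → ℂ` with `ψ θ (algebraMap f) =
γ.ev (N θ) f`, `ψ θ α = r (N θ)` (regard `ℂ` as a `K`-algebra by `γ.ev (N θ)` and use `PowerBasis.lift` /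
`IntermediateField.adjoin.powerBasis` / `AdjoinRoot.lift`). Every element of `E` is `∑ c i α ^ i`, so `θ ↦ ψ θ f` is `C¹` and
periodic. -/
def SpecLFT : Prop :=
  ∀ (K E : Type) [Field K] [Field E] [Algebra K E] [CharZero K] [FiniteDimensional K E]
    (γ : Loop K), ∃ (N : ℕ) (γ' : Loop E), 1 ≤ N ∧
      ∀ (θ : ℝ) (f : K), γ'.ev θ (algebraMap K E f) = γ.ev (N * θ) f

/-- LRG [100 lines]. The regulator along the lifted loop (none).

Proof. Both sides are additive in `b`; for `b = sym f g` the integrand of `reg γ'` at `θ` is `N` times the integrand `I` of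
`reg γ` at `N θ` (chain rule), and `∫_0^{2π} N I(N θ) dθ = ∫_0^{2πN} I = N ∫_0^{2π} I` (substitution
`intervalIntegral.integral_comp_mul_left`, periodicity `Function.Periodic.intervalIntegral_add_eq`, induction). -/
def SpecLRG : Prop :=
  ∀ (K E : Type) [Field K] [Field E] (φ : K →+* E) (γ : Loop K) (γ' : Loop E) (N : ℕ), 1 ≤ N →
    (∀ (θ : ℝ) (f : K), γ'.ev θ (φ f) = γ.ev (N * θ) f) →
      ∀ b : K2 K, reg γ' (k2map φ b) = N * reg γ b

/-- RTS [60 lines]. A root path in `K` of a split polynomial (RTP is not needed).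

Proof. Let `q = ∏ (X - s k)` in `E[X]` with distinct `s k ∈ E` (`k < n`) and let `γ'` be a loop of `E`. The functions
`θ ↦ γ'.ev θ (s k)` are continuous and distinct at every `θ`. If `r : ℝ → ℂ` is continuous with
`∏ (r θ - γ'.ev θ (s k)) = 0` for all `θ`, then the closed sets `{θ | r θ = γ'.ev θ (s k)}` are disjoint and cover `ℝ`, which is
connected, so one of them is `ℝ` (`isPreconnected_univ`, or `IsPreconnected.subset_...`; a finite
disjoint closed cover consists of open sets). -/
def SpecRTS : Prop :=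
  ∀ (E : Type) [Field E] (γ' : Loop E) (n : ℕ) (s : Fin n → E), Function.Injective s →
    ∀ r : ℝ → ℂ, Continuous r → (∀ θ, ∏ k, (r θ - γ'.ev θ (s k)) = 0) →
      ∃ k, ∀ θ, γ'.ev θ (s k) = r θ

end MP743d1e.PC
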